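import Pool.Agent.X135.VT.Up
import Pool.Agent.H160R2.SA.Arm

/-!
The random cluster model with `q = 1` at its self-dual point (critical bond percolation on `ℤ²`):
the probability that the clusters of the box `[-n, n]²` are unusually small.
(1) The largest cluster has at most `n ^ (91/48) / x` vertices with probability
`exp (- Θ (x ^ (96/91)))`, uniformly in `n` and `x`.
(2) For every real `s > 5/91` the mean over the vertices of the box of the `s`-th power of the
size of their cluster, of order `n ^ ((91 s - 5) / 48)`, is smaller by a factor `x` with probability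
`exp (- Θ (x ^ (96 / (91 s - 5))))`, uniformly in `n` and `x`.
-/

set_option autoImplicit false

namespace Pool.Agent.Results.MP_b3e76a_pr.ClusterSizeTails

open MeasureTheory

/-- The square lattice: two points of `ℤ²` are adjacent when they differ by one in exactly one
coordinate. -/
def Z2 : SimpleGraph (ℤ × ℤ) where
  Adj u v := |u.1 - v.1| + |u.2 - v.2| = 1
  symm := ⟨fun u v h => by rw [abs_sub_comm v.1, abs_sub_comm v.2]; exact h⟩
  loopless := ⟨fun u h => by simp at h⟩

/-- Critical bond percolation: every edge of the square lattice is open (`true`) with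
probability `1/2`, independently of the other edges. -/
noncomputable def crit : Measure (Z2.edgeSet → Bool) :=
  Measure.infinitePi (fun _ => ProbabilityTheory.bernoulliMeasure true false
    ⟨1/2, by norm_num, by norm_num⟩)

/-- The graph of the open edges. -/
def openGraph (ω : Z2.edgeSet → Bool) : SimpleGraph (ℤ × ℤ) :=
  SimpleGraph.fromEdgeSet {e | ∃ h : e ∈ Z2.edgeSet, ω ⟨e, h⟩ = true}

/-- The vertices of the box `[-n, n]²`. -/
noncomputable def box (n : ℕ) : Finset (ℤ × ℤ) :=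
  Finset.Icc (-(n : ℤ)) n ×ˢ Finset.Icc (-(n : ℤ)) n

/-- The graph of the open edges with both ends in the box `[-n, n]²`. -/
def boxGraph (n : ℕ) (ω : Z2.edgeSet → Bool) : SimpleGraph (ℤ × ℤ) where
  Adj u v := (openGraph ω).Adj u v ∧ u ∈ box n ∧ v ∈ box n
  symm := ⟨fun _ _ h => ⟨h.1.symm, h.2.2, h.2.1⟩⟩
  loopless := ⟨fun _ h => (openGraph ω).loopless.irrefl _ h.1⟩

/-- The number of vertices of the cluster of `v` in the box. -/
noncomputable def size (n : ℕ) (ω : Z2.edgeSet → Bool) (v : ℤ × ℤ) : ℕ :=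
  Set.ncard {u | (boxGraph n ω).Reachable v u}

/-- The number of vertices of the largest cluster of the box. -/
noncomputable def largest (n : ℕ) (ω : Z2.edgeSet → Bool) : ℕ := (box n).sup (size n ω)

/-- The mean over the vertices of the box of the `s`-th power of the size of their cluster. -/
noncomputable def moment (s : ℝ) (n : ℕ) (ω : Z2.edgeSet → Bool) : ℝ :=
  (∑ v ∈ box n, (size n ω v : ℝ) ^ s) / (2 * (n : ℝ) + 1) ^ 2

theorem size_eq (n : ℕ) (ω : Z2.edgeSet → Bool) {v : ℤ × ℤ} (hv : v ∈ box n) :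
    size n ω v = (X135.VT.cb n (H974.FF (H974.boxE n) ω) v).card := by
  unfold size
  rw [← Set.ncard_coe_finset]
  congr 1
  ext u
  rw [Finset.mem_coe, X135.VT.mem_cb, Y244.PC.reach_FF]
  constructor
  · intro h
    exact ⟨H160R2.CV.w_reach_bx hv ((Y244.PC.reach_FF n ω v u).mpr h), h⟩
  · intro h
    exact h.2

theorem moment_iff {s : ℝ} {n : ℕ} {ω : Z2.edgeSet → Bool} {z : ℝ} : moment s n ω ≤ z ↔
    X135.VT.Sm s n (H974.FF (H974.boxE n) ω) ≤ (2 * (n : ℝ) + 1) ^ 2 * z := by
  unfold moment X135.VT.Sm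
  rw [div_le_iff₀ (by positivity), mul_comm z]
  rw [Finset.sum_congr rfl (fun v hv => by rw [size_eq n ω hv])]
  rfl

theorem moment_prob (s : ℝ) (n : ℕ) (z : ℝ) : crit.real {ω | moment s n ω ≤ z} =
    H974.Pr H160R2.CV.P (H974.boxE n)
      (fun F => X135.VT.Sm s n F ≤ (2 * (n : ℝ) + 1) ^ 2 * z) := by
  have h1 : {ω | moment s n ω ≤ z} = {ω : Z2.edgeSet → Bool |
      X135.VT.Sm s n (H974.FF (H974.boxE n) ω) ≤ (2 * (n : ℝ) + 1) ^ 2 * z} := by
    ext ω
    exact moment_iff
  rw [h1]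
  exact H974.law_event H974.hlf (H974.boxE n)
    (fun F => X135.VT.Sm s n F ≤ (2 * (n : ℝ) + 1) ^ 2 * z)

theorem largest_prob (n : ℕ) {y : ℝ} (hy : 0 ≤ y) : crit.real {ω | (largest n ω : ℝ) ≤ y} =
    H974.Pr H160R2.CV.P (H974.boxE n) (fun F => ¬ H160R2.CV.Big ((⌊y⌋₊ : ℝ) + 1) n F) :=
  Y244.PC.maxCl_le n hy

/-- **The lower tails of the cluster sizes of critical bond percolation on the square lattice.** -/
theorem result :
    (∃ c C : ℝ, 0 < c ∧ 0 < C ∧ ∀ n : ℕ, 1 ≤ n → ∀ x : ℝ, 1 ≤ x →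
      (x ≤ (n : ℝ) ^ (91 / 48 : ℝ) → Real.exp (-(C * x ^ (96 / 91 : ℝ))) ≤
        crit.real {ω | (largest n ω : ℝ) ≤ (n : ℝ) ^ (91 / 48 : ℝ) / x}) ∧
      crit.real {ω | (largest n ω : ℝ) ≤ (n : ℝ) ^ (91 / 48 : ℝ) / x} ≤
        C * Real.exp (-(c * x ^ (96 / 91 : ℝ)))) ∧
    ∀ s : ℝ, 5 / 91 < s → ∃ c C : ℝ, 0 < c ∧ 0 < C ∧ ∀ n : ℕ, 1 ≤ n → ∀ x : ℝ, 1 ≤ x →
      (x ≤ c * (n : ℝ) ^ ((91 * s - 5) / 48) → Real.exp (-(C * x ^ (96 / (91 * s - 5)))) ≤
        crit.real {ω | moment s n ω ≤ (n : ℝ) ^ ((91 * s - 5) / 48) / x}) ∧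
      crit.real {ω | moment s n ω ≤ (n : ℝ) ^ ((91 * s - 5) / 48) / x} ≤
        C * Real.exp (-(c * x ^ (96 / (91 * s - 5)))) := by
  have hAr := H160R2.SA.arSharp
  constructor
  · obtain ⟨C1, hC1, h1⟩ := Y244.PC.lower_tail_lower hAr
    obtain ⟨c, C2, hc, hC2, h2⟩ := X135.VT.max_up hAr
    refine ⟨c, max C1 C2, hc, lt_max_of_lt_left hC1, fun n hn x hx => ⟨fun hxn => ?_, ?_⟩⟩
    · rw [largest_prob n (by positivity)]
      refine le_trans (Real.exp_le_exp.mpr ?_) (h1 n hn x hx hxn)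
      have : 0 ≤ x ^ (96 / 91 : ℝ) := Real.rpow_nonneg (by linarith) _
      have := mul_le_mul_of_nonneg_right (le_max_left C1 C2) this
      linarith
    · rw [largest_prob n (by positivity)]
      exact (h2 n hn x hx).trans
        (mul_le_mul_of_nonneg_right (le_max_right _ _) (Real.exp_pos _).le)
  · intro s hs
    obtain ⟨c1, C1, hc1, hC1, h1⟩ := X135.VT.mom_low hAr hs
    obtain ⟨c2, C2, hc2, hC2, h2⟩ := X135.VT.mom_up hAr hs
    refine ⟨min c1 c2, max C1 C2, lt_min hc1 hc2, lt_max_of_lt_left hC1,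
      fun n hn x hx => ⟨fun hxn => ?_, ?_⟩⟩
    · rw [moment_prob]
      refine le_trans (Real.exp_le_exp.mpr ?_) (h1 n hn x hx (hxn.trans ?_))
      · have : 0 ≤ x ^ (96 / (91 * s - 5)) := Real.rpow_nonneg (by linarith) _
        have := mul_le_mul_of_nonneg_right (le_max_left C1 C2) this
        linarith
      · exact mul_le_mul_of_nonneg_right (min_le_left _ _) (by positivity)
    · rw [moment_prob]
      refine (h2 n hn x hx).trans ?_
      apply mul_le_mul (le_max_right _ _) _ (Real.exp_pos _).le (hC2.le.trans (le_max_right _ _))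
      apply Real.exp_le_exp.mpr
      have : 0 ≤ x ^ (96 / (91 * s - 5)) := Real.rpow_nonneg (by linarith) _
      have := mul_le_mul_of_nonneg_right (min_le_right c1 c2) this
      linarith

end Pool.Agent.Results.MP_b3e76a_pr.ClusterSizeTails
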