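import Pool.Agent.X136.FK.Lim

set_option autoImplicit false

/-!
# FK interfaces with `q` near `1`

The self-dual random-cluster model on `δ ℤ²` in a rectangle with Dobrushin boundary conditions. The
law of the exploration path for the parameter `q` is at total variation distance at most
`C |q - 1| δ ^ (-7/8)` from its law for critical percolation (`q = 1`). If `q = q_δ` tends to `1`
faster than `δ ^ (7/8)`, the exploration paths for `q_δ`, with their natural times, have the same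
limits in law as those of critical percolation.

Definitions: `Pool.Agent.X136.FK.Model`.
-/

namespace Pool.Agent.Results.MP_b3e76a_pr.NearPercolationWindow

open H984P H984N MeasureTheory Filter Topology
open Pool.Agent.X136.FK.Model

/-- **FK interfaces with `q` near `1`.** -/
theorem result :
    (∃ C : ℝ, 0 < C ∧ ∀ q : ℝ, 0 < q → ∀ (D : Dm) (n : ℝ), D.Ok → 1 ≤ n →
      ((D.r - D.l : ℤ) : ℝ) ≤ n → (D.h : ℝ) ≤ n → ∀ G : List St → ℝ, (∀ l, |G l| ≤ 1) →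
      |mean D q (fun F => G (path D F)) - mean D 1 (fun F => G (path D F))| ≤
        C * |q - 1| * n ^ (7/8 : ℝ)) ∧
    ∀ (R : Rect) (q δ : ℕ → ℝ) (hq : ∀ i, 0 < q i), (∀ i, 0 < δ i) → Tendsto δ atTop (𝓝 0) →
      Tendsto (fun i => |q i - 1| * δ i ^ (-(7/8) : ℝ)) atTop (𝓝 0) →
      (∀ μ : ProbabilityMeasure X, Tendsto (fun i => law R (hq i) (δ i)) atTop (𝓝 μ) ↔
        Tendsto (fun i => R.law (δ i)) atTop (𝓝 μ)) ∧
      (∃ φ : ℕ → ℕ, StrictMono φ ∧ ∃ μ : ProbabilityMeasure X,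
        Tendsto (fun i => law R (hq (φ i)) (δ (φ i))) atTop (𝓝 μ)) ∧
      ∀ μ : ProbabilityMeasure X, Tendsto (fun i => law R (hq i) (δ i)) atTop (𝓝 μ) →
        ∀ᵐ p ∂(μ : Measure X), 0 < p.2 ∧ p.1 0 = R.a ∧ p.1 1 = 0 ∧
          (∀ s : unitInterval, p.1 s ∈ closure R.D) ∧
          (∀ s t : unitInterval, s < t → dimH (p.1 '' Set.Icc s t) = 7 / 4) ∧
          (∀ β : ℝ, 0 < β → β < 4/7 → ∃ Λ : ℝ, ∀ s t : unitInterval,
            dist (p.1 s) (p.1 t) ≤ Λ * |(s : ℝ) - t| ^ β) ∧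
          (∀ β : ℝ, 4/7 < β → ∀ s t : unitInterval, s < t →
            ¬ ∃ Λ : ℝ, ∀ u ∈ Set.Icc s t, ∀ v ∈ Set.Icc s t,
              dist (p.1 u) (p.1 v) ≤ Λ * |(u : ℝ) - v| ^ β) := by
  refine ⟨Pool.Agent.X136.FK.fk_tv, fun R q δ hq hδ hlim hw => ?_⟩
  obtain ⟨-, -, h2, h3⟩ := MP_fe58d8_pr.NaturalCurve.result R
  have key := fun μ => Pool.Agent.X136.FK.lim_iff R hq hδ hlim hw μ
  refine ⟨key, ?_, fun μ hμ => h3 δ hδ hlim μ ((key μ).1 hμ)⟩
  obtain ⟨φ, hφ, μ, hμ⟩ := h2 δ hδ hlim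
  refine ⟨φ, hφ, μ, ?_⟩
  exact (Pool.Agent.X136.FK.lim_iff R (fun i => hq (φ i)) (fun i => hδ (φ i))
    (hlim.comp hφ.tendsto_atTop) (hw.comp hφ.tendsto_atTop) μ).2 hμ

end Pool.Agent.Results.MP_b3e76a_pr.NearPercolationWindow
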