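import Pool.Agent.TH966.GB.WirLim
import Pool.Agent.H160R2.SA.Arm

/-!
The random cluster model with `q = 1` at its self-dual point (critical bond percolation) on `δ ℤ²`
in a rectangle `D = (-A, B) × (0, H)` with Dobrushin boundary conditions: the counterclockwise
boundary arc from `a = t + i H` to `b = 0` is wired, the other one is free.

The interface of the problem is the boundary of the open cluster of the wired arc. For every weak
limit `μ`, as `δ → 0`, of the law of this cluster, seen as a compact set (such limits exist along a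
subsequence of every sequence of meshes), the probability to meet a fixed compact subset of `D` is
bounded below by its `5/48`-capacity and above by its `5/48`-dimensional Hausdorff content, up to
constants which depend only on the rectangle and on a compact subset `A` of `D` containing the set.
The essential supremum of the dimension of the part of the cluster in a fixed σ-compact subset `S`
of `D` is exactly `dim S - 5/48`.

Definitions (in `Pool.Agent.H934R2.Expl.Model` and `Pool.Agent.H389R2.CD.Hit`): `Rect` (the domain),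
`Rect.D`, `pt`, `Rect.verts`, `Rect.edges` (the discrete domain), `Rect.wired` (boundary condition),
`Rect.clu` (the vertices of the cluster of the wired arc), `cset`, `clus` (the cluster as a compact
set: its vertices and its edges), `clusLaw` (its law, all configurations of the edges being equally
likely).
-/

namespace Pool.Agent.Results.MP_b3e76a_pr.WiredClusterCapacity

open MeasureTheory TopologicalSpace Filter Topology H934E Metric
open Pool.Agent.H389R2.CD
open scoped ENNReal

theorem result :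
    (∀ (R : Rect) (δ : ℕ → ℝ), (∀ i, 0 < δ i) → Tendsto δ atTop (𝓝 0) →
      ∃ φ : ℕ → ℕ, StrictMono φ ∧ ∃ μ : ProbabilityMeasure (NonemptyCompacts ℂ),
        Tendsto (fun i => clusLaw R (δ (φ i))) atTop (𝓝 μ)) ∧
    (∀ (R : Rect) (A : Set ℂ), IsCompact A → A ⊆ R.D → ∃ c C : ℝ, 0 < c ∧ 0 < C ∧
      ∀ δ : ℕ → ℝ, (∀ i, 0 < δ i) → Tendsto δ atTop (𝓝 0) →
      ∀ μ : ProbabilityMeasure (NonemptyCompacts ℂ),
        Tendsto (fun i => clusLaw R (δ i)) atTop (𝓝 μ) →
        (∀ S : Set ℂ, IsCompact S → S ⊆ A → ∀ ν : Measure ℂ, IsProbabilityMeasure ν →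
          ν Sᶜ = 0 →
          ENNReal.ofReal c / ∫⁻ x, ∫⁻ y, (edist x y) ^ (-(5 / 48) : ℝ) ∂ν ∂ν ≤
            (μ : Measure (NonemptyCompacts ℂ)) {K | ((K : Set ℂ) ∩ S).Nonempty}) ∧
        (∀ (S : Set ℂ) (U : ℕ → Set ℂ), S ⊆ A → S ⊆ ⋃ n, U n →
          (μ : Measure (NonemptyCompacts ℂ)) {K | ((K : Set ℂ) ∩ S).Nonempty} ≤
            ENNReal.ofReal C * ∑' n, ediam (U n) ^ (5 / 48 : ℝ))) ∧
    (∀ (R : Rect) (S : Set ℂ), IsSigmaCompact S → S ⊆ R.D →
      ∀ δ : ℕ → ℝ, (∀ i, 0 < δ i) → Tendsto δ atTop (𝓝 0) →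
      ∀ μ : ProbabilityMeasure (NonemptyCompacts ℂ),
        Tendsto (fun i => clusLaw R (δ i)) atTop (𝓝 μ) →
        essSup (fun K : NonemptyCompacts ℂ => dimH ((K : Set ℂ) ∩ S))
          (μ : Measure (NonemptyCompacts ℂ)) = dimH S - 5 / 48) := by
  have hAr := Pool.Agent.H160R2.SA.arSharp
  have e : ENNReal.ofReal (5 / 48) = 5 / 48 := by
    rw [ENNReal.ofReal_div_of_pos (by norm_num)]
    norm_num
  refine ⟨fun R δ hδ hlim => clus_precompact R hδ hlim, ?_, ?_⟩
  · intro R A hAc hAD
    obtain ⟨c, C, r0, hc, hC, hr0, h⟩ := Pool.Agent.TH966.GB.wired_bds hAr R hAc hAD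
    refine ⟨c ^ 2 / (8 * (C * 3 ^ (5 / 48 : ℝ))), max C (r0 ^ (-(5/48) : ℝ)), by positivity,
      lt_max_of_lt_left hC, ?_⟩
    intro δ hδ hlim μ hμ
    have hb := h δ hδ hlim μ hμ
    refine ⟨?_, ?_⟩
    · intro S hS hSA ν hν hν0
      exact Pool.Agent.TH966.GB.cap_gen (fun K : NonemptyCompacts ℂ => K.isCompact)
        Pool.Agent.TH966.GB.hit_meas (by norm_num) hc hC hr0 hb hS hSA hν0
    · intro S U hSA hU
      exact Pool.Agent.TH966.GB.content_gen (by norm_num) hC hr0 hb hSA U hU
  · intro R S hS hSD δ hδ hlim μ hμ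
    rw [← e]
    apply Pool.Agent.TH966.GB.ess_gen (fun K : NonemptyCompacts ℂ => K.isCompact)
      Pool.Agent.TH966.GB.hit_meas (by norm_num) hS
    intro A hAS hAc
    obtain ⟨c, C, r0, hc, hC, hr0, h⟩ := Pool.Agent.TH966.GB.wired_bds hAr R hAc (hAS.trans hSD)
    exact ⟨c, C, r0, hc, hC, hr0, h δ hδ hlim μ hμ⟩

end Pool.Agent.Results.MP_b3e76a_pr.WiredClusterCapacity
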