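import Pool.Agent.X135.VT.WUp
import Pool.Agent.H160R2.SA.Arm

/-!
The random cluster model with `q = 1` at its self-dual point (critical bond percolation on `ℤ²`) in
the box `[-n, n]²` with wired boundary conditions on a set `W` of boundary vertices which contains
a macroscopic segment of the bottom side (for instance an arc: Dobrushin boundary conditions), free
boundary conditions elsewhere: the number of vertices of the wired cluster, which is of order
`n ^ (91/48)`, is at most `n ^ (91/48) / x` with probability `exp (- Θ (x ^ (48/43)))`, uniformly in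
`n`, `x` and `W`.
-/

set_option autoImplicit false

namespace Pool.Agent.Results.MP_b3e76a_pr.WiredClusterSize

open MeasureTheory

/-- The square lattice: two points of `ℤ²` are adjacent when they differ by one in exactly one
coordinate. -/
def Z2 : SimpleGraph (ℤ × ℤ) where
  Adj u v := |u.1 - v.1| + |u.2 - v.2| = 1
  symm := ⟨fun u v h => by rw [abs_sub_comm v.1, abs_sub_comm v.2]; exact h⟩
  loopless := ⟨fun u h => by simp at h⟩

/-- Critical bond percolation: every edge of the square lattice is open (`true`) with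
probability `1/2`, independently of the other edges. -/
noncomputable def crit : Measure (Z2.edgeSet → Bool) :=
  Measure.infinitePi (fun _ => ProbabilityTheory.bernoulliMeasure true false
    ⟨1/2, by norm_num, by norm_num⟩)

/-- The graph of the open edges. -/
def openGraph (ω : Z2.edgeSet → Bool) : SimpleGraph (ℤ × ℤ) :=
  SimpleGraph.fromEdgeSet {e | ∃ h : e ∈ Z2.edgeSet, ω ⟨e, h⟩ = true}

/-- The vertices of the box `[-n, n]²`. -/
noncomputable def box (n : ℕ) : Finset (ℤ × ℤ) :=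
  Finset.Icc (-(n : ℤ)) n ×ˢ Finset.Icc (-(n : ℤ)) n

/-- The graph of the open edges with both ends in the box `[-n, n]²`. -/
def boxGraph (n : ℕ) (ω : Z2.edgeSet → Bool) : SimpleGraph (ℤ × ℤ) where
  Adj u v := (openGraph ω).Adj u v ∧ u ∈ box n ∧ v ∈ box n
  symm := ⟨fun _ _ h => ⟨h.1.symm, h.2.2, h.2.1⟩⟩
  loopless := ⟨fun _ h => (openGraph ω).loopless.irrefl _ h.1⟩

/-- The number of vertices of the box which are connected to `W` by open edges of the box: the size
of the cluster of `W` when `W` is wired. -/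
noncomputable def wired (n : ℕ) (W : Finset (ℤ × ℤ)) (ω : Z2.edgeSet → Bool) : ℕ :=
  Set.ncard {v | v ∈ box n ∧ ∃ w ∈ W, (boxGraph n ω).Reachable v w}

theorem wired_eq (n : ℕ) (W : Finset (ℤ × ℤ)) (ω : Z2.edgeSet → Bool) :
    wired n W ω = X135.VT.NW n W (H974.FF (H974.boxE n) ω) := by
  classical
  unfold wired X135.VT.NW
  rw [← Set.ncard_coe_finset]
  congr 1
  ext v
  simp only [Set.mem_setOf_eq, Finset.coe_filter, Y244.PC.reach_FF]
  rfl

theorem wired_prob (n : ℕ) (W : Finset (ℤ × ℤ)) (z : ℝ) : crit.real {ω | (wired n W ω : ℝ) ≤ z} =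
    H974.Pr H160R2.CV.P (H974.boxE n) (fun F => (X135.VT.NW n W F : ℝ) ≤ z) := by
  have h1 : {ω | (wired n W ω : ℝ) ≤ z} = {ω : Z2.edgeSet → Bool |
      (X135.VT.NW n W (H974.FF (H974.boxE n) ω) : ℝ) ≤ z} := by
    ext ω
    simp only [Set.mem_setOf_eq, wired_eq]
  rw [h1]
  exact H974.law_event H974.hlf (H974.boxE n) (fun F => (X135.VT.NW n W F : ℝ) ≤ z)

/-- **The lower tail of the size of the wired cluster.** -/
theorem result (ρ : ℝ) (hρ : 0 < ρ) : ∃ c C : ℝ, 0 < c ∧ 0 < C ∧ ∀ n : ℕ, 1 ≤ n →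
    ∀ W : Finset (ℤ × ℤ), (∀ w ∈ W, w ∈ box n ∧ (|w.1| = n ∨ |w.2| = n)) →
    ∀ a b : ℤ, -(n : ℤ) ≤ a → b ≤ n → ρ * n ≤ (b : ℝ) - a →
    (∀ t : ℤ, a ≤ t → t ≤ b → ((t, -(n : ℤ)) : ℤ × ℤ) ∈ W) → ∀ x : ℝ, 1 ≤ x →
      (x ≤ c * (n : ℝ) ^ (43 / 48 : ℝ) → Real.exp (-(C * x ^ (48 / 43 : ℝ))) ≤
        crit.real {ω | (wired n W ω : ℝ) ≤ (n : ℝ) ^ (91 / 48 : ℝ) / x}) ∧
      crit.real {ω | (wired n W ω : ℝ) ≤ (n : ℝ) ^ (91 / 48 : ℝ) / x} ≤
        C * Real.exp (-(c * x ^ (48 / 43 : ℝ))) := by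
  have hAr := H160R2.SA.arSharp
  obtain ⟨c1, C1, hc1, hC1, h1⟩ := X135.VT.wired_low hAr
  obtain ⟨c2, C2, hc2, hC2, h2⟩ := X135.VT.wired_up hAr ρ hρ
  refine ⟨min c1 c2, max C1 C2, lt_min hc1 hc2, lt_max_of_lt_left hC1,
    fun n hn W hW a b ha hb hab hseg x hx => ⟨fun hxn => ?_, ?_⟩⟩
  · have hW' : ∀ u ∈ W, H160R2.CV.nv u = n := by
      intro u hu
      obtain ⟨h3, h4⟩ := hW u hu
      have h5 : (-(n : ℤ) ≤ u.1 ∧ u.1 ≤ n) ∧ (-(n : ℤ) ≤ u.2 ∧ u.2 ≤ n) := by
        unfold box at h3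
        rw [Finset.mem_product, Finset.mem_Icc, Finset.mem_Icc] at h3
        exact h3
      unfold H160R2.CV.nv
      rcases h4 with h4 | h4
      · rcases (abs_eq (by positivity)).mp h4 with h6 | h6 <;> omega
      · rcases (abs_eq (by positivity)).mp h4 with h6 | h6 <;> omega
    rw [wired_prob]
    refine le_trans (Real.exp_le_exp.mpr ?_) (h1 n hn W hW' x hx (hxn.trans ?_))
    · have : 0 ≤ x ^ (48 / 43 : ℝ) := Real.rpow_nonneg (by linarith) _
      have := mul_le_mul_of_nonneg_right (le_max_left C1 C2) this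
      linarith
    · exact mul_le_mul_of_nonneg_right (min_le_left _ _) (by positivity)
  · rw [wired_prob]
    refine (h2 n hn a b ha hb hab W hseg x hx).trans ?_
    apply mul_le_mul (le_max_right _ _) _ (Real.exp_pos _).le (hC2.le.trans (le_max_right _ _))
    apply Real.exp_le_exp.mpr
    have : 0 ≤ x ^ (48 / 43 : ℝ) := Real.rpow_nonneg (by linarith) _
    have := mul_le_mul_of_nonneg_right (min_le_right c1 c2) this
    linarith

end Pool.Agent.Results.MP_b3e76a_pr.WiredClusterSize
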